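import Pool.Agent.H80.UM.Main

/-!
# The UMDA on OneMax with small populations

For every constant `c > 0` there are `mu n ≤ lam n ≤ c * log n` such that for all large `n` the
UMDA (with borders) with the parameters `mu n` and `lam n` has expected optimization time at most
`n ^ 3` on OneMax, whatever the rule for breaking ties is.  Hence part (b) of the question fails for
every `c > 0`, and the negated form holds.

The proof.  Here `lam n = ⌊c * log n⌋` and `mu n = lam n / B`, where `B` depends only on `c`.
Let `s` be the average number of zeros of the selected offspring.  At a state with a frequency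
strictly between the borders the selection is so strong that `s` decreases by at least
`1 / (2 * mu)` in expectation.  At a state with all frequencies at the borders let `k` frequencies be
at the lower border.  With probability about `k / n` some offspring has a one at such a
position; otherwise the position stays at the lower border, and other frequencies which leave the
upper border return to it within `T` generations, with an error probability of `n ^ (- 7)`.
Hence the expected value of `s` decreases by at least `1 / (8 * n * mu)` until the next time at which
all frequencies are at the borders.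
-/

namespace Pool.Agent.Results.MP_dfb1a1_lc.SmallPopulations

open Pool.Agent.H80.UM

theorem result : ∀ c : ℝ, 0 < c → ∃ mu lam : ℕ → ℕ,
    (∀ n, mu n ≤ lam n ∧ (lam n : ℝ) ≤ c * Real.log n) ∧
    ∃ n₀ : ℕ, ∀ n ≥ n₀, 1 ≤ mu n ∧ Nonempty (TieRule n (lam n) (mu n)) ∧
      ∀ R : TieRule n (lam n) (mu n), expectedTime R ≤ (n : ENNReal) ^ 3 := by
  intro c hc
  obtain ⟨B, hB⟩ := ev_time hc
  refine ⟨fun n => lam c n / B, lam c, fun n => ⟨Nat.div_le_self _ _, lam_le hc.le n⟩, ?_⟩
  obtain ⟨n₀, h⟩ := Filter.eventually_atTop.1 hB
  exact ⟨n₀, fun n hn => ⟨(h n hn).1, nonempty_tieRule (Nat.div_le_self _ _), (h n hn).2⟩⟩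

end Pool.Agent.Results.MP_dfb1a1_lc.SmallPopulations
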